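import Pool.Agent.H520PS.Core

namespace H520PS

open Finset

/-- The coefficients `c_j` of `exp (-∑ S_k x^k / k)`. -/
noncomputable def cs (S : ℕ → ℂ) : ℕ → ℂ
  | 0 => 1
  | (j+1) => -(1/((j:ℂ)+1)) * ∑ k : Fin (j+1), cs S k * S (j+1-k)

lemma cs_zero (S : ℕ → ℂ) : cs S 0 = 1 := by rw [cs]

lemma cs_rec (S : ℕ → ℂ) (k : ℕ) (hk : 1 ≤ k) :
    ∑ i ∈ range k, cs S i * S (k-i) = -(k * cs S k) := by
  obtain ⟨j, rfl⟩ : ∃ j, k = j+1 := ⟨k-1, by omega⟩
  rw [cs, Finset.sum_range]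
  have : ((j:ℂ)+1) ≠ 0 := by exact_mod_cast Nat.succ_ne_zero j
  push_cast
  field_simp

/-- Power sums prescribed exactly up to index `m`, the last one computed. -/
lemma exists_powersums (m : ℕ) (S : ℕ → ℂ) :
    ∃ z : Fin (m+1) → ℂ, z 0 = 1 ∧ (∀ k, 1 ≤ k → k ≤ m → ∑ j, z j ^ k = S k) ∧
      ∑ j, z j ^ (m+1) = ((m:ℂ)+1) + ∑ i ∈ range m, cs S (i+1) * (((m:ℂ)+1) - S (m-i)) := by
  classical
  set g : ℕ → ℂ := fun j => if j ≤ m then cs S j else -∑ i ∈ range (m+1), cs S i with hg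
  have hg1 : ∀ j, j ≤ m → g j = cs S j := by intro j hj; simp [hg, hj]
  have hg2 : g (m+1) = -∑ i ∈ range (m+1), cs S i := by simp [hg]
  have hsum : ∑ j ∈ range (m+2), g j = 0 := by
    rw [Finset.sum_range_succ, hg2, Finset.sum_congr rfl (fun j hj => hg1 j
      (Nat.lt_succ_iff.1 (Finset.mem_range.1 hj)))]
    ring
  obtain ⟨z, hz0, hz⟩ := exists_roots m g (by rw [hg1 0 (Nat.zero_le _), cs_zero]) hsum
  have hN := newton m g z hz
  have hp : ∀ k, 1 ≤ k → k ≤ m → ∑ j, z j ^ k = S k := by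
    intro k
    induction k using Nat.strong_induction_on with
    | _ k ih =>
      intro hk1 hkm
      have h1 := hN k (by omega)
      have h2 := cs_rec S k hk1
      obtain ⟨l, rfl⟩ : ∃ l, k = l+1 := ⟨k-1, by omega⟩
      rw [Finset.sum_range_succ'] at h1 h2
      have h3 : ∑ i ∈ range l, g (i+1) * (∑ j, z j ^ (l+1-(i+1))) =
          ∑ i ∈ range l, cs S (i+1) * S (l+1-(i+1)) := by
        refine Finset.sum_congr rfl ?_
        intro i hi
        have hi' := Finset.mem_range.1 hi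
        rw [hg1 (i+1) (by omega), ih (l+1-(i+1)) (by omega) (by omega) (by omega)]
      rw [h3, hg1 (l+1) hkm, hg1 0 (Nat.zero_le _), cs_zero, one_mul] at h1
      rw [cs_zero, one_mul] at h2
      simp only [Nat.sub_zero] at h1 h2
      linear_combination h1 - h2
  refine ⟨z, hz0, hp, ?_⟩
  have h1 := hN (m+1) le_rfl
  rw [Finset.sum_range_succ', hg2, hg1 0 (Nat.zero_le _), cs_zero, one_mul] at h1
  have h3 : ∑ i ∈ range m, g (i+1) * (∑ j, z j ^ (m+1-(i+1))) =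
      ∑ i ∈ range m, cs S (i+1) * S (m-i) := by
    refine Finset.sum_congr rfl ?_
    intro i hi
    have hi' := Finset.mem_range.1 hi
    have e : m+1-(i+1) = m-i := by omega
    rw [hg1 (i+1) (by omega), e, hp (m-i) (by omega) (by omega)]
  rw [h3, Finset.sum_range_succ', cs_zero] at h1
  simp only [Nat.sub_zero] at h1
  have h4 : ∑ i ∈ range m, cs S (i+1) * (((m:ℂ)+1) - S (m-i)) =
      ((m:ℂ)+1) * ∑ i ∈ range m, cs S (i+1) - ∑ i ∈ range m, cs S (i+1) * S (m-i) := by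
    rw [Finset.mul_sum, ← Finset.sum_sub_distrib]
    exact Finset.sum_congr rfl (fun i _ => by ring)
  rw [h4]
  push_cast at h1
  linear_combination h1

/-- Approximate coefficients are close to the true ones. -/
lemma approx (m : ℕ) (S t : ℕ → ℂ) (ρ : ℝ) (hS : ∀ k, 1 ≤ k → k ≤ m → ‖S k‖ ≤ 1)
    (ht0 : t 0 = 1)
    (hres : ∀ k, 1 ≤ k → k ≤ m → ‖(k:ℂ) * t k + ∑ i ∈ range k, t i * S (k-i)‖ ≤ ρ) :
    ∀ k, 1 ≤ k → k ≤ m → ‖cs S k - t k‖ ≤ ρ := by
  intro k
  induction k using Nat.strong_induction_on with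
  | _ k ih =>
    intro hk1 hkm
    have h2 := cs_rec S k hk1
    have h1 := hres k hk1 hkm
    obtain ⟨l, rfl⟩ : ∃ l, k = l+1 := ⟨k-1, by omega⟩
    have key : (((l+1:ℕ):ℂ)) * (cs S (l+1) - t (l+1)) =
        - (∑ i ∈ range l, (cs S (i+1) - t (i+1)) * S (l-i))
        - ((((l+1:ℕ):ℂ)) * t (l+1) + ∑ i ∈ range (l+1), t i * S (l+1-i)) := by
      have h3 : ∑ i ∈ range (l+1), cs S i * S (l+1-i) - ∑ i ∈ range (l+1), t i * S (l+1-i)
          = ∑ i ∈ range l, (cs S (i+1) - t (i+1)) * S (l-i) := by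
        rw [← Finset.sum_sub_distrib, Finset.sum_range_succ', cs_zero, ht0, sub_self, add_zero]
        refine Finset.sum_congr rfl ?_
        intro i _
        have e : l+1-(i+1) = l-i := by omega
        rw [e]; ring
      rw [← h3]
      linear_combination h2
    have hn := congrArg norm key
    rw [norm_mul, Complex.norm_natCast] at hn
    have h5 : ‖∑ i ∈ range l, (cs S (i+1) - t (i+1)) * S (l-i)‖ ≤ l * ρ := by
      refine (norm_sum_le _ _).trans ?_
      have : ∀ i ∈ range l, ‖(cs S (i+1) - t (i+1)) * S (l-i)‖ ≤ ρ := by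
        intro i hi
        have hi' := Finset.mem_range.1 hi
        rw [norm_mul]
        have a1 := ih (i+1) (by omega) (by omega) (by omega)
        have a2 := hS (l-i) (by omega) (by omega)
        calc ‖cs S (i+1) - t (i+1)‖ * ‖S (l-i)‖ ≤ ρ * 1 :=
              mul_le_mul a1 a2 (norm_nonneg _) ((norm_nonneg _).trans a1)
          _ = ρ := mul_one _
      refine (Finset.sum_le_sum this).trans ?_
      simp
    have h6 : (((l+1:ℕ)):ℝ) * ‖cs S (l+1) - t (l+1)‖ ≤ ((l+1:ℕ):ℝ) * ρ := by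
      rw [hn]
      refine (norm_sub_le _ _).trans ?_
      rw [norm_neg]
      push_cast
      push_cast at h1
      linarith
    exact le_of_mul_le_mul_left h6 (by positivity)

/-- Combined statement. -/
lemma exists_of_approx (m : ℕ) (S t : ℕ → ℂ) (ρ c c' : ℝ) (hc : c ≤ 1)
    (hS : ∀ k, 1 ≤ k → k ≤ m → ‖S k‖ ≤ c) (ht0 : t 0 = 1)
    (hres : ∀ k, 1 ≤ k → k ≤ m → ‖(k:ℂ) * t k + ∑ i ∈ range k, t i * S (k-i)‖ ≤ ρ)
    (hlast : ‖((m:ℂ)+1) + ∑ i ∈ range m, t (i+1) * (((m:ℂ)+1) - S (m-i))‖ ≤ c')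
    (hcc : c' + m * ((m+2) * ρ) ≤ c) :
    ∃ z : Fin (m+1) → ℂ, z 0 = 1 ∧ ∀ k, 1 ≤ k → k ≤ m+1 → ‖∑ j, z j ^ k‖ ≤ c := by
  obtain ⟨z, hz0, hz1, hz2⟩ := exists_powersums m S
  have hap := approx m S t ρ (fun k h1 h2 => (hS k h1 h2).trans hc) ht0 hres
  refine ⟨z, hz0, ?_⟩
  intro k hk1 hk2
  rcases Nat.lt_or_ge m k with h | h
  · have hk : k = m+1 := by omega
    subst hk
    rw [hz2]
    have e : ((m:ℂ)+1) + ∑ i ∈ range m, cs S (i+1) * (((m:ℂ)+1) - S (m-i)) =
        (((m:ℂ)+1) + ∑ i ∈ range m, t (i+1) * (((m:ℂ)+1) - S (m-i))) +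
        ∑ i ∈ range m, (cs S (i+1) - t (i+1)) * (((m:ℂ)+1) - S (m-i)) := by
      have e' : ∑ i ∈ range m, cs S (i+1) * (((m:ℂ)+1) - S (m-i)) =
          ∑ i ∈ range m, t (i+1) * (((m:ℂ)+1) - S (m-i)) +
          ∑ i ∈ range m, (cs S (i+1) - t (i+1)) * (((m:ℂ)+1) - S (m-i)) := by
        rw [← Finset.sum_add_distrib]
        exact Finset.sum_congr rfl (fun i _ => by ring)
      rw [e']; ring
    rw [e]
    refine (norm_add_le _ _).trans ?_
    have h5 : ‖∑ i ∈ range m, (cs S (i+1) - t (i+1)) * (((m:ℂ)+1) - S (m-i))‖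
        ≤ m * ((m+2) * ρ) := by
      refine (norm_sum_le _ _).trans ?_
      have : ∀ i ∈ range m, ‖(cs S (i+1) - t (i+1)) * (((m:ℂ)+1) - S (m-i))‖
          ≤ (m+2) * ρ := by
        intro i hi
        have hi' := Finset.mem_range.1 hi
        rw [norm_mul]
        have a1 := hap (i+1) (by omega) (by omega)
        have a2 := (hS (m-i) (by omega) (by omega)).trans hc
        have a3 : ‖((m:ℂ)+1) - S (m-i)‖ ≤ m+2 := by
          refine (norm_sub_le _ _).trans ?_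
          have : ‖((m:ℂ)+1)‖ = (m:ℝ)+1 := by
            rw [show ((m:ℂ)+1) = ((m+1:ℕ):ℂ) by push_cast; ring, Complex.norm_natCast]
            push_cast; ring
          rw [this]; linarith
        rw [mul_comm]
        exact mul_le_mul a3 a1 (norm_nonneg _) (by positivity)
      refine (Finset.sum_le_sum this).trans ?_
      simp
    linarith
  · rw [hz1 k hk1 h]
    exact hS k hk1 h

end H520PS
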