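import Pool.Agent.H520PS.Approx

namespace H520PS

open Finset

/-- Dot product of two lists (truncated to the shorter one). -/
def dot (as : List ℤ) : List ℤ → ℤ :=
  List.rec (motive := fun _ => List ℤ → ℤ) (fun _ => Int.ofNat 0)
    (fun a _ ih bs => List.rec (motive := fun _ => ℤ) (Int.ofNat 0)
      (fun b bs' _ => Int.add (Int.mul a b) (ih bs')) bs) as

lemma dot_nil (bs : List ℤ) : dot [] bs = 0 := rfl
lemma dot_nil' (as : List ℤ) : dot as [] = 0 := by cases as <;> rfl
lemma dot_cons (a b : ℤ) (as bs : List ℤ) : dot (a :: as) (b :: bs) = a * b + dot as bs := rfl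

lemma dot_eq (as bs : List ℤ) :
    dot as bs = ∑ i ∈ range bs.length, as.getD i 0 * bs.getD i 0 := by
  induction as generalizing bs with
  | nil => rw [dot_nil]; simp
  | cons a as ih =>
    cases bs with
    | nil => rw [dot_nil']; simp
    | cons b bs =>
      rw [dot_cons, ih, List.length_cons, Finset.sum_range_succ']
      simp [add_comm]

lemma dot_rev (a b : List ℤ) (j : ℕ) (hj : j ≤ b.length) :
    dot a (b.take j).reverse = ∑ i ∈ range j, a.getD i 0 * b.getD (j-1-i) 0 := by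
  rw [dot_eq]
  have hlen : (b.take j).reverse.length = j := by
    rw [List.length_reverse, List.length_take]; omega
  rw [hlen]
  refine Finset.sum_congr rfl ?_
  intro i hi
  have hi' := Finset.mem_range.1 hi
  congr 1
  have hl : (b.take j).length = j := by rw [List.length_take]; omega
  rw [List.getD_eq_getElem?_getD, List.getD_eq_getElem?_getD,
    List.getElem?_reverse (by rw [hl]; exact hi'), hl,
    List.getElem?_take_of_lt (by omega)]

/-- Residual check at index `j+1`. -/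
def chkJ (D1 D2 : ℤ) (B C : ℕ) (sr si gr gi : List ℤ) (j : ℕ) : Bool :=
  Nat.ble (Int.natAbs (Int.add (Int.add (Int.mul (Int.mul D1 (Int.ofNat (j+1))) (gr.getD j 0))
      (Int.mul D2 (sr.getD j 0)))
      (Int.sub (dot gr (sr.take j).reverse) (dot gi (si.take j).reverse)))) B &&
  (Nat.ble (Int.natAbs (Int.add (Int.add (Int.mul (Int.mul D1 (Int.ofNat (j+1))) (gi.getD j 0))
      (Int.mul D2 (si.getD j 0)))
      (Int.add (dot gr (si.take j).reverse) (dot gi (sr.take j).reverse)))) B &&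
  Nat.ble (Int.natAbs (sr.getD j 0) ^ 2 + Int.natAbs (si.getD j 0) ^ 2) (C^2))

/-- Check of the last power sum. -/
def chkLast (m : ℕ) (D1 D2 : ℤ) (C' : ℕ) (sr si gr gi : List ℤ) : Bool :=
  Nat.ble (Int.natAbs ((m+1) * D1 * (D2 + dot gr (List.replicate m 1)) -
      (dot gr (sr.take m).reverse - dot gi (si.take m).reverse)) ^ 2 +
    Int.natAbs ((m+1) * D1 * (dot gi (List.replicate m 1)) -
      (dot gr (si.take m).reverse + dot gi (sr.take m).reverse)) ^ 2) (C' ^ 2)

/-- Gaussian integer as a complex number. -/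
noncomputable def toC (a b : ℤ) : ℂ := (a:ℂ) + (b:ℂ) * Complex.I

lemma norm_toC_le (a b : ℤ) (R : ℕ) (h : a.natAbs ^ 2 + b.natAbs ^ 2 ≤ R ^ 2) :
    ‖toC a b‖ ≤ R := by
  have h1 : ‖toC a b‖ ^ 2 = (a:ℝ)^2 + (b:ℝ)^2 := by
    rw [Complex.sq_norm, Complex.normSq_apply, toC]
    simp
    ring
  have h2 : (a:ℝ)^2 + (b:ℝ)^2 ≤ (R:ℝ)^2 := by
    have h3 : ((a.natAbs ^ 2 + b.natAbs ^ 2 : ℕ) : ℤ) ≤ ((R^2 : ℕ) : ℤ) := by exact_mod_cast h
    push_cast at h3
    rw [sq_abs, sq_abs] at h3
    exact_mod_cast h3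
  exact (pow_le_pow_iff_left₀ (norm_nonneg _) (Nat.cast_nonneg _) two_ne_zero).1 (h1 ▸ h2)

lemma norm_toC_le' (a b : ℤ) (B : ℕ) (h1 : a.natAbs ≤ B) (h2 : b.natAbs ≤ B) :
    ‖toC a b‖ ≤ 2 * B := by
  have g1 := Nat.pow_le_pow_left h1 2
  have g2 := Nat.pow_le_pow_left h2 2
  have h := norm_toC_le a b (2*B) (by rw [mul_pow]; linarith [Nat.zero_le (B^2)])
  push_cast at h
  exact h

lemma toC_mul (a b c d : ℤ) : toC a b * toC c d = toC (a*c-b*d) (a*d+b*c) := by
  simp only [toC]
  push_cast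
  ring_nf
  rw [Complex.I_sq]
  ring

lemma toC_add (a b c d : ℤ) : toC a b + toC c d = toC (a+c) (b+d) := by
  simp only [toC]; push_cast; ring

lemma toC_sum (s : Finset ℕ) (f g : ℕ → ℤ) :
    ∑ i ∈ s, toC (f i) (g i) = toC (∑ i ∈ s, f i) (∑ i ∈ s, g i) := by
  simp only [toC, Finset.sum_add_distrib, Finset.sum_mul, Int.cast_sum]

lemma conv (sr si gr gi : List ℤ) (j : ℕ) (h1 : j ≤ sr.length) (h2 : j ≤ si.length) :
    ∑ i ∈ range j, toC (gr.getD i 0) (gi.getD i 0) *
      toC (sr.getD (j-1-i) 0) (si.getD (j-1-i) 0) =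
    toC (dot gr (sr.take j).reverse - dot gi (si.take j).reverse)
      (dot gr (si.take j).reverse + dot gi (sr.take j).reverse) := by
  simp only [toC_mul]
  rw [toC_sum, dot_rev _ _ _ h1, dot_rev _ _ _ h2, dot_rev _ _ _ h1, dot_rev _ _ _ h2,
    Finset.sum_sub_distrib, Finset.sum_add_distrib]

lemma dot_one (a : List ℤ) (m : ℕ) :
    dot a (List.replicate m 1) = ∑ i ∈ range m, a.getD i 0 := by
  rw [dot_eq, List.length_replicate]
  refine Finset.sum_congr rfl ?_
  intro i hi
  have hi' := Finset.mem_range.1 hi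
  rw [List.getD_eq_getElem?_getD (l := List.replicate m 1), List.getElem?_replicate, if_pos hi']
  simp

theorem sound (m d1 d2 B C C' : ℕ) (sr si gr gi : List ℤ) (hd1 : 0 < d1) (hd2 : 0 < d2)
    (hC : C ≤ d1) (hs : sr.length = m) (hs' : si.length = m)
    (hJ : ∀ j, j < m → chkJ (Int.ofNat d1) (Int.ofNat d2) B C sr si gr gi j = true)
    (hL : chkLast m (Int.ofNat d1) (Int.ofNat d2) C' sr si gr gi = true)
    (hF : C' + m * ((m+2) * (2 * B)) ≤ C * d2) :
    ∃ z : Fin (m+1) → ℂ, z 0 = 1 ∧ ∀ k, 1 ≤ k → k ≤ m+1 → ‖∑ j, z j ^ k‖ ≤ (C:ℝ)/d1 := by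
  have e1 : (0:ℝ) < d1 := by exact_mod_cast hd1
  have e2 : (0:ℝ) < d2 := by exact_mod_cast hd2
  have f1 : (d1:ℂ) ≠ 0 := by exact_mod_cast hd1.ne'
  have f2 : (d2:ℂ) ≠ 0 := by exact_mod_cast hd2.ne'
  set S : ℕ → ℂ := fun k => toC (sr.getD (k-1) 0) (si.getD (k-1) 0) / d1 with hS
  set t : ℕ → ℂ := fun k => if k = 0 then 1 else toC (gr.getD (k-1) 0) (gi.getD (k-1) 0) / d2
    with ht
  have ht0 : t 0 = 1 := by simp [ht]
  have ht1 : ∀ i, t (i+1) = toC (gr.getD i 0) (gi.getD i 0) / d2 := by intro i; simp [ht]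
  have hJ' : ∀ j, j < m → _ := fun j hj => by
    have := hJ j hj
    unfold chkJ at this
    rw [Bool.and_eq_true, Bool.and_eq_true, Nat.ble_eq, Nat.ble_eq, Nat.ble_eq] at this
    exact this
  refine exists_of_approx m S t (2 * B / (d1 * d2)) ((C:ℝ)/d1) (C' / (d1 * d2)) ?_ ?_ ht0 ?_ ?_ ?_
  · rw [div_le_one e1]; exact_mod_cast hC
  · intro k hk1 hk2
    have h := (hJ' (k-1) (by omega)).2.2
    have h2 := norm_toC_le _ _ _ h
    rw [hS]
    simp only
    rw [norm_div, Complex.norm_natCast]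
    exact div_le_div_of_nonneg_right h2 e1.le
  · intro k hk1 hk2
    obtain ⟨j, rfl⟩ : ∃ j, k = j+1 := ⟨k-1, by omega⟩
    have h := hJ' j (by omega)
    have h2 := norm_toC_le' _ _ _ h.1 h.2.1
    have hc := conv sr si gr gi j (by omega) (by omega)
    have key : ((j+1:ℕ):ℂ) * t (j+1) + ∑ i ∈ range (j+1), t i * S (j+1-i) =
        toC (Int.add (Int.add (Int.mul (Int.mul (Int.ofNat d1) (Int.ofNat (j+1))) (gr.getD j 0))
      (Int.mul (Int.ofNat d2) (sr.getD j 0)))
      (Int.sub (dot gr (sr.take j).reverse) (dot gi (si.take j).reverse)))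
      (Int.add (Int.add (Int.mul (Int.mul (Int.ofNat d1) (Int.ofNat (j+1))) (gi.getD j 0))
      (Int.mul (Int.ofNat d2) (si.getD j 0)))
      (Int.add (dot gr (si.take j).reverse) (dot gi (sr.take j).reverse))) / (d1 * d2) := by
      have hsum : ∑ i ∈ range (j+1), t i * S (j+1-i) =
          (∑ i ∈ range j, toC (gr.getD i 0) (gi.getD i 0) *
            toC (sr.getD (j-1-i) 0) (si.getD (j-1-i) 0)) / (d1 * d2)
          + toC (sr.getD j 0) (si.getD j 0) / d1 := by
        rw [Finset.sum_range_succ', ht0, one_mul, Finset.sum_div]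
        congr 1
        refine Finset.sum_congr rfl ?_
        intro i hi
        have hi' := Finset.mem_range.1 hi
        rw [ht1]
        simp only [hS]
        have e : j + 1 - (i+1) - 1 = j - 1 - i := by omega
        rw [e]
        field_simp
      rw [hsum, hc, ht1]
      change _ = toC ((((d1:ℤ) * ((j+1:ℕ):ℤ)) * (gr.getD j 0) + (d2:ℤ) * (sr.getD j 0))
        + ((dot gr (sr.take j).reverse) - (dot gi (si.take j).reverse)))
        ((((d1:ℤ) * ((j+1:ℕ):ℤ)) * (gi.getD j 0) + (d2:ℤ) * (si.getD j 0))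
        + ((dot gr (si.take j).reverse) + (dot gi (sr.take j).reverse))) / (d1 * d2)
      simp only [toC]
      push_cast
      field_simp
      ring
    rw [key, norm_div]
    have : ‖(d1:ℂ) * d2‖ = d1 * d2 := by rw [norm_mul, Complex.norm_natCast, Complex.norm_natCast]
    rw [this]
    exact div_le_div_of_nonneg_right h2 (by positivity)
  · have hc := conv sr si gr gi m (by omega) (by omega)
    have h : _ := hL
    unfold chkLast at h
    rw [Nat.ble_eq] at h
    have h2 := norm_toC_le _ _ _ h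
    have key : ((m:ℂ)+1) + ∑ i ∈ range m, t (i+1) * (((m:ℂ)+1) - S (m-i)) =
        toC ((m+1) * (Int.ofNat d1) * ((Int.ofNat d2) + dot gr (List.replicate m 1)) -
      (dot gr (sr.take m).reverse - dot gi (si.take m).reverse))
      ((m+1) * (Int.ofNat d1) * (dot gi (List.replicate m 1)) -
      (dot gr (si.take m).reverse + dot gi (sr.take m).reverse)) / (d1 * d2) := by
      have hsum : ∑ i ∈ range m, t (i+1) * (((m:ℂ)+1) - S (m-i)) =
          ((m:ℂ)+1) * (∑ i ∈ range m, toC (gr.getD i 0) (gi.getD i 0)) / d2 -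
          (∑ i ∈ range m, toC (gr.getD i 0) (gi.getD i 0) *
            toC (sr.getD (m-1-i) 0) (si.getD (m-1-i) 0)) / (d1 * d2) := by
        rw [Finset.mul_sum, Finset.sum_div, Finset.sum_div, ← Finset.sum_sub_distrib]
        refine Finset.sum_congr rfl ?_
        intro i hi
        have hi' := Finset.mem_range.1 hi
        rw [ht1]
        simp only [hS]
        have e : m - i - 1 = m - 1 - i := by omega
        rw [e]
        field_simp
      rw [hsum, hc, toC_sum, dot_one, dot_one]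
      change _ = toC ((m+1) * (d1:ℤ) * ((d2:ℤ) + ∑ i ∈ range m, gr.getD i 0) -
          (dot gr (sr.take m).reverse - dot gi (si.take m).reverse))
        ((m+1) * (d1:ℤ) * (∑ i ∈ range m, gi.getD i 0) -
          (dot gr (si.take m).reverse + dot gi (sr.take m).reverse)) / (d1 * d2)
      simp only [toC]
      push_cast
      field_simp
      ring
    rw [key, norm_div]
    have : ‖(d1:ℂ) * d2‖ = d1 * d2 := by rw [norm_mul, Complex.norm_natCast, Complex.norm_natCast]
    rw [this]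
    exact div_le_div_of_nonneg_right h2 (by positivity)
  · have h : ((C' + m * ((m+2) * (2 * B)) : ℕ) : ℝ) ≤ ((C * d2 : ℕ) : ℝ) := by exact_mod_cast hF
    push_cast at h
    have : (C':ℝ) / (d1 * d2) + m * ((m+2) * (2 * B / (d1 * d2))) =
        (C' + m * ((m+2) * (2*B))) / (d1 * d2) := by field_simp
    rw [this, div_le_div_iff₀ (by positivity) e1]
    nlinarith [mul_le_mul_of_nonneg_right h e1.le]

end H520PS
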