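import Mathlib

namespace H520PS

open Finset

/-- Vieta: a monic polynomial with prescribed coefficients and a root at `1`. -/
lemma exists_roots (m : ℕ) (g : ℕ → ℂ) (g0 : g 0 = 1)
    (hsum : ∑ j ∈ range (m+2), g j = 0) :
    ∃ z : Fin (m+1) → ℂ, z 0 = 1 ∧ ∀ k, k ≤ m+1 →
      (MvPolynomial.aeval z) (MvPolynomial.esymm (Fin (m+1)) ℂ k) = (-1)^k * g k := by
  classical
  set P : Polynomial ℂ := ∑ j ∈ range (m+2), Polynomial.C (g (m+1-j)) * Polynomial.X^j with hP
  have hcoeff : ∀ i, i ≤ m+1 → P.coeff i = g (m+1-i) := by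
    intro i hi
    rw [hP, Polynomial.finsetSum_coeff]
    simp only [Polynomial.coeff_C_mul, Polynomial.coeff_X_pow]
    rw [Finset.sum_eq_single i]
    · simp
    · intro b _ hb
      simp [Ne.symm hb]
    · intro h
      exact absurd (Finset.mem_range.2 (by omega)) h
  have hdeg : P.natDegree ≤ m+1 := by
    rw [hP]
    refine Polynomial.natDegree_sum_le_of_forall_le _ _ ?_
    intro i hi
    refine (Polynomial.natDegree_C_mul_X_pow_le _ _).trans ?_
    have := Finset.mem_range.1 hi
    omega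
  have hlead : P.coeff (m+1) = 1 := by rw [hcoeff _ le_rfl]; simpa using g0
  have hdeg' : P.natDegree = m+1 := by
    apply le_antisymm hdeg
    apply Polynomial.le_natDegree_of_ne_zero
    rw [hlead]; exact one_ne_zero
  have hmonic : P.Monic := by
    rw [Polynomial.Monic, Polynomial.leadingCoeff, hdeg', hlead]
  have hP0 : P ≠ 0 := hmonic.ne_zero
  have hroot : P.IsRoot 1 := by
    rw [Polynomial.IsRoot, hP, Polynomial.eval_finsetSum]
    simp only [Polynomial.eval_mul, Polynomial.eval_C, Polynomial.eval_pow, Polynomial.eval_X,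
      one_pow, mul_one]
    rw [← hsum, ← Finset.sum_range_reflect]
    refine Finset.sum_congr rfl ?_
    intro j hj
    have := Finset.mem_range.1 hj
    congr 1
    omega
  have hcard : Multiset.card P.roots = P.natDegree :=
    Polynomial.splits_iff_card_roots.1 (IsAlgClosed.splits P)
  have hmem : (1:ℂ) ∈ P.roots := (Polynomial.mem_roots hP0).2 hroot
  obtain ⟨t, ht⟩ := Multiset.exists_cons_of_mem hmem
  have hct : Multiset.card t = m := by
    have := congrArg Multiset.card ht
    rw [hcard, hdeg', Multiset.card_cons] at this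
    omega
  obtain ⟨z, hz0, hzmap⟩ : ∃ z : Fin (m+1) → ℂ, z 0 = 1 ∧
      (Finset.univ : Finset (Fin (m+1))).val.map z = P.roots := by
    obtain ⟨l, hl⟩ : ∃ l : List ℂ, (l : Multiset ℂ) = t := ⟨t.toList, Multiset.coe_toList t⟩
    have hlen : l.length = m := by rw [← hct, ← hl]; rfl
    subst hlen
    refine ⟨fun i => (1 :: l).get i, by simp, ?_⟩
    rw [Fin.univ_val_map, ht, ← hl]
    exact congrArg (fun x : List ℂ => (x : Multiset ℂ)) (List.ofFn_get (1 :: l))
  refine ⟨z, hz0, ?_⟩
  intro k hk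
  rw [MvPolynomial.aeval_esymm_eq_multiset_esymm, hzmap]
  have h1 := Polynomial.coeff_eq_esymm_roots_of_card hcard (k := m+1-k)
    (by rw [hdeg']; omega)
  rw [hcoeff _ (by omega), hdeg', hmonic.leadingCoeff] at h1
  have h2 : m + 1 - (m + 1 - k) = k := by omega
  rw [h2] at h1
  rw [h1]
  have : ((-1:ℂ)^k) * (-1)^k = 1 := by rw [← mul_pow]; simp
  linear_combination (-(P.roots.esymm k)) * this

/-- Newton's identities in terms of the coefficients. -/
lemma newton (m : ℕ) (g : ℕ → ℂ) (z : Fin (m+1) → ℂ)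
    (hz : ∀ k, k ≤ m+1 →
      (MvPolynomial.aeval z) (MvPolynomial.esymm (Fin (m+1)) ℂ k) = (-1)^k * g k)
    (k : ℕ) (hk : k ≤ m+1) :
    ∑ i ∈ range k, g i * (∑ j, z j ^ (k-i)) = -(k * g k) := by
  have h := congrArg (MvPolynomial.aeval z) (MvPolynomial.mul_esymm_eq_sum (Fin (m+1)) ℂ k)
  rw [map_mul, map_mul, map_sum, hz k hk] at h
  have h3 : ∑ a ∈ antidiagonal k with a.1 < k,
      (MvPolynomial.aeval z) ((-1) ^ a.1 * MvPolynomial.esymm (Fin (m+1)) ℂ a.1 *
        MvPolynomial.psum (Fin (m+1)) ℂ a.2) = ∑ i ∈ range k, g i * (∑ j, z j ^ (k-i)) := by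
    rw [Finset.sum_filter, Finset.Nat.sum_antidiagonal_eq_sum_range_succ_mk,
      Finset.sum_range_succ]
    simp only [lt_irrefl, if_false, add_zero]
    refine Finset.sum_congr rfl ?_
    intro i hi
    have hi' := Finset.mem_range.1 hi
    rw [if_pos hi', map_mul, map_mul, hz i (by omega)]
    have : ((-1:ℂ)^i) * (-1)^i = 1 := by rw [← mul_pow]; simp
    simp only [map_pow, map_neg, map_one, MvPolynomial.psum, map_sum, MvPolynomial.aeval_X]
    rw [← mul_assoc, this, one_mul]
  rw [h3] at h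
  simp only [map_pow, map_neg, map_one, map_natCast] at h
  have : ((-1:ℂ)^k) * (-1)^k = 1 := by rw [← mul_pow]; simp
  rw [pow_succ] at h
  linear_combination ((-1:ℂ)^k) * h - (k * g k + ∑ i ∈ range k, g i * (∑ j, z j ^ (k-i))) * this

end H520PS
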