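import Pool.Agent.H520PS.Check

namespace H520PS

open Finset Polynomial

/-- The polynomial with coefficient list `l`. -/
noncomputable def toPoly : List ℤ → ℤ[X]
  | [] => 0
  | a :: as => C a + X * toPoly as

lemma coeff_toPoly (l : List ℤ) (i : ℕ) : (toPoly l).coeff i = l.getD i 0 := by
  induction l generalizing i with
  | nil => simp [toPoly]
  | cons a as ih =>
    cases i with
    | zero => simp [toPoly]
    | succ i => rw [toPoly, coeff_add, coeff_X_mul, ih, coeff_C_succ, zero_add,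
        List.getD_cons_succ]

/-- Horner evaluation of the coefficient list at `x`. -/
def ev (x : ℤ) : List ℤ → ℤ
  | [] => 0
  | a :: as => a + x * ev x as

lemma eval_toPoly (x : ℤ) (l : List ℤ) : (toPoly l).eval x = ev x l := by
  induction l with
  | nil => simp [toPoly, ev]
  | cons a as ih => simp [toPoly, ev, ih]

/-- Multiply the `i`-th entry by `k + i`. -/
def wt : ℕ → List ℤ → List ℤ
  | _, [] => []
  | k, a :: as => (k:ℤ) * a :: wt (k+1) as

lemma getD_wt (k : ℕ) (l : List ℤ) (i : ℕ) :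
    (wt k l).getD i 0 = ((k+i : ℕ):ℤ) * l.getD i 0 := by
  induction l generalizing k i with
  | nil => simp [wt]
  | cons a as ih =>
    cases i with
    | zero => simp [wt]
    | succ i =>
      rw [wt, List.getD_cons_succ, List.getD_cons_succ, ih]
      congr 1
      push_cast; ring

/-- Balanced digits in base `x` are unique. -/
lemma unique_digits (x K : ℤ) (hK : 0 ≤ K) (hx : 2 * K < x) (r : List ℤ) (P : ℤ[X])
    (hP : ∀ j, j < r.length → |P.coeff j| ≤ K) (hr : ∀ a ∈ r, |a| ≤ K)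
    (hdiv : x ^ r.length ∣ P.eval x - ev x r) :
    ∀ j, j < r.length → P.coeff j = r.getD j 0 := by
  induction r generalizing P with
  | nil => intro j hj; simp at hj
  | cons a as ih =>
    have hx0 : 0 < x := by linarith
    have hev : P.eval x = P.coeff 0 + x * P.divX.eval x := by
      conv_lhs => rw [← P.divX_mul_X_add]
      simp only [eval_add, eval_mul, eval_X, eval_C]
      ring
    rw [List.length_cons, pow_succ', ev, hev] at hdiv
    have e : P.coeff 0 + x * eval x P.divX - (a + x * ev x as) =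
        (P.coeff 0 - a) + x * (eval x P.divX - ev x as) := by ring
    rw [e] at hdiv
    have hd1 : x ∣ P.coeff 0 - a := by
      have h1 : x ∣ (P.coeff 0 - a) + x * (eval x P.divX - ev x as) :=
        (Dvd.intro _ rfl).trans hdiv
      exact (dvd_add_left (Dvd.intro _ rfl)).1 h1
    have h0 : P.coeff 0 - a = 0 := by
      apply Int.eq_zero_of_abs_lt_dvd hd1
      have h1 := hP 0 (by simp)
      have h2 := hr a (by simp)
      exact (abs_sub _ _).trans_lt (by linarith)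
    rw [h0, zero_add] at hdiv
    have hd2 : x ^ as.length ∣ eval x P.divX - ev x as :=
      (mul_dvd_mul_iff_left hx0.ne').1 hdiv
    intro j hj
    cases j with
    | zero => simp; linarith
    | succ j =>
      have h3 := ih P.divX (fun j hj => by rw [coeff_divX]; exact hP (j+1) (by simpa using hj))
        (fun b hb => hr b (List.mem_cons_of_mem _ hb)) hd2 j (by simpa using hj)
      rw [coeff_divX] at h3
      simpa using h3

lemma coeff_conv (a b : List ℤ) (j : ℕ) :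
    (X * (toPoly a * toPoly b)).coeff j =
      ∑ i ∈ range j, a.getD i 0 * b.getD (j-1-i) 0 := by
  cases j with
  | zero => simp
  | succ j =>
    rw [coeff_X_mul, coeff_mul,
      Finset.Nat.sum_antidiagonal_eq_sum_range_succ (fun i l => (toPoly a).coeff i *
        (toPoly b).coeff l)]
    refine Finset.sum_congr rfl ?_
    intro i _
    rw [coeff_toPoly, coeff_toPoly]
    rfl

lemma getD_le (l : List ℤ) (G : ℕ) (h : ∀ a ∈ l, a.natAbs ≤ G) (i : ℕ) :
    |l.getD i 0| ≤ G := by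
  rcases Nat.lt_or_ge i l.length with hi | hi
  · rw [List.getD_eq_getElem _ _ hi]
    have := h _ (List.getElem_mem hi)
    rw [Int.abs_eq_natAbs]
    exact_mod_cast this
  · rw [List.getD_eq_default _ _ hi]; simp

lemma conv_le (a b : List ℤ) (G H m : ℕ) (ha : ∀ x ∈ a, x.natAbs ≤ G)
    (hb : ∀ x ∈ b, x.natAbs ≤ H) (j : ℕ) (hj : j ≤ m) :
    |∑ i ∈ range j, a.getD i 0 * b.getD (j-1-i) 0| ≤ m * (G * H) := by
  refine (Finset.abs_sum_le_sum_abs _ _).trans ?_
  have : ∀ i ∈ range j, |a.getD i 0 * b.getD (j-1-i) 0| ≤ (G:ℤ) * H := by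
    intro i _
    rw [abs_mul]
    exact mul_le_mul (getD_le a G ha i) (getD_le b H hb _) (abs_nonneg _) (by positivity)
  refine (Finset.sum_le_sum this).trans ?_
  rw [Finset.sum_const, card_range, nsmul_eq_mul]
  have hj' : (j:ℤ) ≤ m := by exact_mod_cast hj
  exact mul_le_mul_of_nonneg_right hj' (by positivity)

/-- One-shot residual check by evaluating at a power of two.
`g, g'` and `s, s'` are convolved with sign `e`. -/
def chkK (L m : ℕ) (D1 D2 e : ℤ) (w v a b a' b' r : List ℤ) : Bool :=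
  Nat.beq (Nat.mod (Int.natAbs (D1 * ev (Int.ofNat (2^L)) (wt 1 w) +
      D2 * ev (Int.ofNat (2^L)) v +
    (Int.ofNat (2^L)) * (ev (Int.ofNat (2^L)) a * ev (Int.ofNat (2^L)) b) +
    e * ((Int.ofNat (2^L)) * (ev (Int.ofNat (2^L)) a' * ev (Int.ofNat (2^L)) b')) -
    ev (Int.ofNat (2^L)) r)) (2^(L*m))) 0

lemma chkK_sound (L m d1 d2 B : ℕ) (e : ℤ) (he : |e| = 1) (w v a b a' b' r : List ℤ)
    (h : chkK L m (Int.ofNat d1) (Int.ofNat d2) e w v a b a' b' r = true)
    (hw : ∀ x ∈ w, x.natAbs ≤ d2) (hv : ∀ x ∈ v, x.natAbs ≤ d1)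
    (ha : ∀ x ∈ a, x.natAbs ≤ d2) (hb : ∀ x ∈ b, x.natAbs ≤ d1)
    (ha' : ∀ x ∈ a', x.natAbs ≤ d2) (hb' : ∀ x ∈ b', x.natAbs ≤ d1)
    (hr : ∀ x ∈ r, x.natAbs ≤ B) (hrm : r.length = m)
    (hB : B ≤ (3*m+1)*(d1*d2)) (hL : 2 * ((3*m+1)*(d1*d2)) < 2^L) (j : ℕ) (hj : j < m) :
    (((d1:ℤ) * ((j+1:ℕ):ℤ)) * w.getD j 0 + (d2:ℤ) * v.getD j 0 +
      ((∑ i ∈ range j, a.getD i 0 * b.getD (j-1-i) 0) +
        e * (∑ i ∈ range j, a'.getD i 0 * b'.getD (j-1-i) 0))).natAbs ≤ B := by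
  set P : ℤ[X] := C (d1:ℤ) * toPoly (wt 1 w) + C (d2:ℤ) * toPoly v +
    X * (toPoly a * toPoly b) + C e * (X * (toPoly a' * toPoly b')) with hP
  have hco : ∀ j, P.coeff j = ((d1:ℤ) * ((j+1:ℕ):ℤ)) * w.getD j 0 + (d2:ℤ) * v.getD j 0 +
      ((∑ i ∈ range j, a.getD i 0 * b.getD (j-1-i) 0) +
        e * (∑ i ∈ range j, a'.getD i 0 * b'.getD (j-1-i) 0)) := by
    intro j
    rw [hP, coeff_add, coeff_add, coeff_add, coeff_C_mul, coeff_C_mul, coeff_C_mul,
      coeff_conv, coeff_conv, coeff_toPoly, coeff_toPoly, getD_wt]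
    push_cast
    ring
  have hbd : ∀ j, j < m → |P.coeff j| ≤ ((3*m+1)*(d1*d2) : ℕ) := by
    intro j hj
    rw [hco]
    have h1 := getD_le w d2 hw j
    have h2 := getD_le v d1 hv j
    have h3 := conv_le a b d2 d1 m ha hb j hj.le
    have h4 := conv_le a' b' d2 d1 m ha' hb' j hj.le
    have h5 : |((d1:ℤ) * ((j+1:ℕ):ℤ)) * w.getD j 0| ≤ (d1:ℤ) * m * d2 := by
      rw [abs_mul]
      have h6 : |(d1:ℤ) * ((j+1:ℕ):ℤ)| ≤ (d1:ℤ) * m := by
        rw [abs_of_nonneg (by positivity)]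
        have : ((j+1:ℕ):ℤ) ≤ m := by exact_mod_cast hj
        exact mul_le_mul_of_nonneg_left this (by positivity)
      exact mul_le_mul h6 h1 (abs_nonneg _) (by positivity)
    have h7 : |(d2:ℤ) * v.getD j 0| ≤ (d2:ℤ) * d1 := by
      rw [abs_mul, abs_of_nonneg (by positivity : (0:ℤ) ≤ d2)]
      exact mul_le_mul_of_nonneg_left h2 (by positivity)
    have h8 : |e * (∑ i ∈ range j, a'.getD i 0 * b'.getD (j-1-i) 0)| ≤ m * (d2 * d1) := by
      rw [abs_mul, he, one_mul]; exact h4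
    have h9 := abs_add_le (((d1:ℤ) * ((j+1:ℕ):ℤ)) * w.getD j 0 + (d2:ℤ) * v.getD j 0)
      ((∑ i ∈ range j, a.getD i 0 * b.getD (j-1-i) 0) +
        e * (∑ i ∈ range j, a'.getD i 0 * b'.getD (j-1-i) 0))
    have h10 := abs_add_le (((d1:ℤ) * ((j+1:ℕ):ℤ)) * w.getD j 0) ((d2:ℤ) * v.getD j 0)
    have h11 := abs_add_le (∑ i ∈ range j, a.getD i 0 * b.getD (j-1-i) 0)
      (e * (∑ i ∈ range j, a'.getD i 0 * b'.getD (j-1-i) 0))
    have h12 : |((d1:ℤ) * ((j+1:ℕ):ℤ)) * w.getD j 0 + (d2:ℤ) * v.getD j 0 +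
      ((∑ i ∈ range j, a.getD i 0 * b.getD (j-1-i) 0) +
        e * (∑ i ∈ range j, a'.getD i 0 * b'.getD (j-1-i) 0))| ≤
        (d1:ℤ) * m * d2 + (d2:ℤ) * d1 + (m * (d2 * d1) + m * (d2 * d1)) := by linarith
    refine h12.trans (le_of_eq ?_)
    push_cast
    ring
  have hev : P.eval (2^L : ℤ) = (d1:ℤ) * ev (2^L) (wt 1 w) + (d2:ℤ) * ev (2^L) v +
    (2^L) * (ev (2^L) a * ev (2^L) b) + e * ((2^L) * (ev (2^L) a' * ev (2^L) b')) := by
    rw [hP]
    simp only [eval_add, eval_mul, eval_C, eval_X, eval_toPoly]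
  have hdiv : ((2:ℤ)^L) ^ r.length ∣ P.eval (2^L : ℤ) - ev (2^L) r := by
    unfold chkK at h
    rw [Nat.beq_eq] at h
    have h2 := Nat.dvd_of_mod_eq_zero h
    have h3 := Int.natCast_dvd.2 h2
    rw [hrm, ← pow_mul, hev]
    push_cast at h3
    have e0 : (Int.ofNat (2^L)) = (2:ℤ)^L := by
      change ((2^L : ℕ) : ℤ) = _
      push_cast; rfl
    rw [e0] at h3
    exact h3
  have hL' : 2 * (((3*m+1)*(d1*d2) : ℕ) : ℤ) < (2:ℤ)^L := by exact_mod_cast hL
  have hu := unique_digits (2^L) ((3*m+1)*(d1*d2) : ℕ) (by positivity) hL' r P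
    (by rw [hrm]; exact hbd)
    (by
      intro x hx
      rw [Int.abs_eq_natAbs]
      have := (hr x hx).trans hB
      exact_mod_cast this) hdiv j (by rw [hrm]; exact hj)
  rw [← hco, hu]
  have := getD_le r B hr j
  rw [Int.abs_eq_natAbs] at this
  exact_mod_cast this

/-- Moduli check for the prescribed power sums. -/
def chkN (C : ℕ) : List ℤ → List ℤ → Bool
  | a :: as, b :: bs => Nat.ble (Int.natAbs a ^ 2 + Int.natAbs b ^ 2) (C^2) && chkN C as bs
  | _, _ => true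

lemma chkN_sound (C : ℕ) (s t : List ℤ) (hl : s.length = t.length) (h : chkN C s t = true)
    (j : ℕ) : Int.natAbs (s.getD j 0) ^ 2 + Int.natAbs (t.getD j 0) ^ 2 ≤ C^2 := by
  induction s generalizing t j with
  | nil =>
    cases t with
    | nil => simp
    | cons b bs => simp at hl
  | cons a as ih =>
    cases t with
    | nil => simp at hl
    | cons b bs =>
      rw [chkN, Bool.and_eq_true, Nat.ble_eq] at h
      cases j with
      | zero => simpa using h.1
      | succ j =>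
        rw [List.getD_cons_succ, List.getD_cons_succ]
        exact ih bs (by simpa using hl) h.2 j

/-- All entries are at most `G` in absolute value. -/
def chkB (G : ℕ) (l : List ℤ) : Bool := l.all (fun a => Nat.ble (Int.natAbs a) G)

lemma chkB_sound (G : ℕ) (l : List ℤ) (h : chkB G l = true) : ∀ a ∈ l, a.natAbs ≤ G := by
  intro a ha
  have := List.all_eq_true.1 h a ha
  rwa [Nat.ble_eq] at this

theorem sound2 (L m d1 d2 B C C' : ℕ) (sr si gr gi rr ri : List ℤ) (hd1 : 0 < d1) (hd2 : 0 < d2)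
    (hC : C ≤ d1) (hs : sr.length = m) (hs' : si.length = m)
    (hrl : rr.length = m) (hrl' : ri.length = m)
    (b1 : chkB d1 sr = true) (b2 : chkB d1 si = true) (b3 : chkB d2 gr = true)
    (b4 : chkB d2 gi = true) (b5 : chkB B rr = true) (b6 : chkB B ri = true)
    (hN : chkN C sr si = true)
    (hB : B ≤ (3*m+1)*(d1*d2)) (hL0 : 2 * ((3*m+1)*(d1*d2)) < 2^L)
    (k1 : chkK L m (Int.ofNat d1) (Int.ofNat d2) (-1) gr sr gr sr gi si rr = true)
    (k2 : chkK L m (Int.ofNat d1) (Int.ofNat d2) 1 gi si gr si gi sr ri = true)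
    (hL : chkLast m (Int.ofNat d1) (Int.ofNat d2) C' sr si gr gi = true)
    (hF : C' + m * ((m+2) * (2 * B)) ≤ C * d2) :
    ∃ z : Fin (m+1) → ℂ, z 0 = 1 ∧ ∀ k, 1 ≤ k → k ≤ m+1 → ‖∑ j, z j ^ k‖ ≤ (C:ℝ)/d1 := by
  refine sound m d1 d2 B C C' sr si gr gi hd1 hd2 hC hs hs' ?_ hL hF
  intro j hj
  have c1 := chkK_sound L m d1 d2 B (-1) (by simp) gr sr gr sr gi si rr k1 (chkB_sound _ _ b3)
    (chkB_sound _ _ b1) (chkB_sound _ _ b3) (chkB_sound _ _ b1) (chkB_sound _ _ b4)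
    (chkB_sound _ _ b2) (chkB_sound _ _ b5) hrl hB hL0 j hj
  have c2 := chkK_sound L m d1 d2 B 1 (by simp) gi si gr si gi sr ri k2 (chkB_sound _ _ b4)
    (chkB_sound _ _ b2) (chkB_sound _ _ b3) (chkB_sound _ _ b2) (chkB_sound _ _ b4)
    (chkB_sound _ _ b1) (chkB_sound _ _ b6) hrl' hB hL0 j hj
  unfold chkJ
  rw [Bool.and_eq_true, Bool.and_eq_true, Nat.ble_eq, Nat.ble_eq, Nat.ble_eq]
  refine ⟨?_, ?_, chkN_sound C sr si (by rw [hs, hs']) hN j⟩
  · rw [dot_rev _ _ _ (by omega), dot_rev _ _ _ (by omega)]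
    have e1 : (∑ i ∈ range j, gr.getD i 0 * sr.getD (j-1-i) 0) +
        (-1) * (∑ i ∈ range j, gi.getD i 0 * si.getD (j-1-i) 0) =
        (∑ i ∈ range j, gr.getD i 0 * sr.getD (j-1-i) 0) -
          (∑ i ∈ range j, gi.getD i 0 * si.getD (j-1-i) 0) := by ring
    rw [e1] at c1
    exact c1
  · rw [dot_rev _ _ _ (by omega), dot_rev _ _ _ (by omega)]
    rw [one_mul] at c2
    exact c2

end H520PS
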