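import Pool.Agent.H520PS.Data1600

set_option maxRecDepth 100000

namespace H520PS.D1600

theorem k2 : chkK L m (Int.ofNat d1) (Int.ofNat d2) 1 gi si gr si gi sr ri = true := by
  decide +kernel

end H520PS.D1600
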