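import Pool.Agent.H520PS.Data1600

set_option maxRecDepth 100000

namespace H520PS.D1600

theorem hL : chkLast m (Int.ofNat d1) (Int.ofNat d2) C' sr si gr gi = true := by
  decide +kernel

theorem hs : sr.length = m := by decide +kernel
theorem hs' : si.length = m := by decide +kernel
theorem hr : rr.length = m := by decide +kernel
theorem hr' : ri.length = m := by decide +kernel
theorem b1 : chkB d1 sr = true := by decide +kernel
theorem b2 : chkB d1 si = true := by decide +kernel
theorem b3 : chkB d2 gr = true := by decide +kernel
theorem b4 : chkB d2 gi = true := by decide +kernel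
theorem b5 : chkB B rr = true := by decide +kernel
theorem b6 : chkB B ri = true := by decide +kernel
theorem hN : chkN C sr si = true := by decide +kernel
theorem hF : C' + m * ((m+2) * (2 * B)) ≤ C * d2 := by decide +kernel
theorem hB : B ≤ (3*m+1)*(d1*d2) := by decide +kernel
theorem hL0 : 2 * ((3*m+1)*(d1*d2)) < 2^L := by decide +kernel

end H520PS.D1600
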